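import Mathlib
import Pool.Agent.Helper36.CV.StmtsP

set_option autoImplicit false

namespace Pool.Agent.Helper36.CV

open Complex Filter Topology MeasureTheory Set

noncomputable section

theorem a2_isOpen_Uo : IsOpen Uo := isOpen_lt continuous_const Complex.continuous_im

theorem a2_lim {E : Type} [NormedAddCommGroup E] [NormedSpace ℝ E] (F : ℕ → ℝ → E) (f : ℝ → E)
    (b : ℝ → ℝ) (hF : ∀ n, Integrable (F n)) (hb : Integrable b) (hle : ∀ n t, ‖F n t‖ ≤ b t)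
    (hlim : ∀ᵐ t : ℝ, Tendsto (fun n => F n t) atTop (𝓝 (f t))) :
    Integrable f ∧ Tendsto (fun n => ∫ t, F n t) atTop (𝓝 (∫ t, f t)) :=
  ⟨hb.mono' (aestronglyMeasurable_of_tendsto_ae atTop (fun n => (hF n).1) hlim)
    (hlim.mono fun t ht => le_of_tendsto ht.norm (Eventually.of_forall fun n => hle n t)),
   tendsto_integral_of_dominated_convergence b (fun n => (hF n).1) hb (fun n => ae_of_all _ (hle n)) hlim⟩

theorem a2_log (r : ℝ) (hr : 0 ≤ r) : 1 + Real.log (1 + r) ≤ 3 * (1 + r) ^ (1 / 2 : ℝ) := by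
  have h0 : (0 : ℝ) < 1 + r := by linarith
  have h1 : Real.log (1 + r) = 2 * Real.log ((1 + r) ^ (1 / 2 : ℝ)) := by
    rw [Real.log_rpow h0]; ring
  have h2 : (0 : ℝ) < (1 + r) ^ (1 / 2 : ℝ) := by positivity
  have h3 := Real.log_le_sub_one_of_pos h2
  have h4 : (1 : ℝ) ≤ (1 + r) ^ (1 / 2 : ℝ) := Real.one_le_rpow (by linarith) (by norm_num)
  rw [h1]
  linarith

/-- the distance of a real point to a point of the upper half plane -/
theorem a2_far (z : ℂ) (hz : z ∈ Uo) : ∃ c : ℝ, 0 < c ∧ ∀ t : ℝ, 1 + |t| ≤ c * ‖(t : ℂ) - z‖ := by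
  have hz' : 0 < z.im := hz
  refine ⟨1 + (1 + ‖z‖) / z.im, by positivity, fun t => ?_⟩
  have h1 : z.im ≤ ‖(t : ℂ) - z‖ := by
    have := Complex.abs_im_le_norm ((t : ℂ) - z)
    simp only [sub_im, ofReal_im, zero_sub, abs_neg] at this
    exact (le_abs_self _).trans this
  have h2 : |t| - ‖z‖ ≤ ‖(t : ℂ) - z‖ := by
    have := norm_sub_norm_le (t : ℂ) z
    simpa using this
  have h3 : (1 + ‖z‖) ≤ (1 + ‖z‖) / z.im * ‖(t : ℂ) - z‖ := by
    rw [div_mul_eq_mul_div, le_div_iff₀ hz']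
    exact mul_le_mul_of_nonneg_left h1 (by positivity)
  linarith

/-- the shift of a bound -/
theorem a2_bd (G : ℂ → ℂ) (A : ℝ)
    (hA : ∀ z ∈ Uo, |(G z).im| ≤ A * (1 + Real.log (1 + ‖z‖))) (d t : ℝ) (hd : 0 < d) (hd1 : d ≤ 1) :
    |(G ((t : ℂ) + (d : ℂ) * I)).im| ≤ (6 * |A|) * (1 + |t|) ^ (1 / 2 : ℝ) := by
  have h1 : (t : ℂ) + (d : ℂ) * I ∈ Uo := by
    simp only [Uo, mem_ofPred_eq, add_im, ofReal_im, mul_im, ofReal_re, I_im, mul_one, I_re, mul_zero,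
      add_zero, zero_add]
    exact hd
  have h2 := hA _ h1
  have h3 : ‖(t : ℂ) + (d : ℂ) * I‖ ≤ |t| + 1 := by
    refine (norm_add_le _ _).trans ?_
    rw [norm_mul, Complex.norm_I, mul_one, Complex.norm_real, Complex.norm_real, Real.norm_eq_abs,
      Real.norm_eq_abs, abs_of_pos hd]
    linarith
  have h4 : Real.log (1 + ‖(t : ℂ) + (d : ℂ) * I‖) ≤ 1 + Real.log (1 + |t|) := by
    have h5 : 1 + ‖(t : ℂ) + (d : ℂ) * I‖ ≤ 2 * (1 + |t|) := by
      have := abs_nonneg t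
      linarith
    have h6 := Real.log_le_log (by positivity) h5
    rw [Real.log_mul (by norm_num) (by positivity)] at h6
    have h7 : Real.log 2 ≤ 1 := by
      have := Real.log_le_sub_one_of_pos (show (0 : ℝ) < 2 by norm_num)
      linarith
    linarith
  have h8 : 0 ≤ Real.log (1 + |t|) := Real.log_nonneg (by linarith [abs_nonneg t])
  have h9 : 0 ≤ Real.log (1 + ‖(t : ℂ) + (d : ℂ) * I‖) :=
    Real.log_nonneg (by linarith [norm_nonneg ((t : ℂ) + (d : ℂ) * I)])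
  have h10 := a2_log |t| (abs_nonneg t)
  calc |(G ((t : ℂ) + (d : ℂ) * I)).im| ≤ A * (1 + Real.log (1 + ‖(t : ℂ) + (d : ℂ) * I‖)) := h2
    _ ≤ |A| * (1 + Real.log (1 + ‖(t : ℂ) + (d : ℂ) * I‖)) :=
        mul_le_mul_of_nonneg_right (le_abs_self A) (by linarith)
    _ ≤ |A| * (2 * (3 * (1 + |t|) ^ (1 / 2 : ℝ))) := by
        apply mul_le_mul_of_nonneg_left _ (abs_nonneg A)
        linarith
    _ = _ := by ring

theorem a2_pow (t : ℝ) : (1 + |t|) ^ (1 / 2 : ℝ) * ((1 + |t|) * (1 + |t|))⁻¹ = (1 + ‖t‖) ^ (-(3 / 2) : ℝ) := by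
  have hp : (0 : ℝ) < 1 + |t| := by positivity
  have h5 : ((1 + |t|) * (1 + |t|))⁻¹ = (1 + |t|) ^ (-2 : ℝ) := by
    rw [Real.rpow_neg hp.le, show (2 : ℝ) = ((2 : ℕ) : ℝ) by norm_num, Real.rpow_natCast]
    congr 1
    ring
  rw [h5, ← Real.rpow_add hp, Real.norm_eq_abs]
  norm_num

theorem a2_int (C : ℝ) : Integrable (fun t : ℝ => C * (1 + ‖t‖) ^ (-(3 / 2) : ℝ)) := by
  apply Integrable.const_mul
  apply integrable_one_add_norm
  simp
  norm_num

/-- bound for the difference kernel -/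
theorem a2_ker (z₁ z₂ : ℂ) (h₁ : z₁ ∈ Uo) (h₂ : z₂ ∈ Uo) :
    ∃ c : ℝ, 0 ≤ c ∧ ∀ t : ℝ, ‖1 / ((t : ℂ) - z₁) - 1 / ((t : ℂ) - z₂)‖ ≤ c * ((1 + |t|) * (1 + |t|))⁻¹ := by
  obtain ⟨c₁, hc₁, f₁⟩ := a2_far z₁ h₁
  obtain ⟨c₂, hc₂, f₂⟩ := a2_far z₂ h₂
  refine ⟨‖z₁ - z₂‖ * (c₁ * c₂), by positivity, fun t => ?_⟩
  have hp : (0 : ℝ) < 1 + |t| := by positivity
  have n₁ : 0 < ‖(t : ℂ) - z₁‖ := by
    by_contra h
    have := f₁ t
    have h' := mul_le_mul_of_nonneg_left (not_lt.mp h) hc₁.le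
    linarith
  have n₂ : 0 < ‖(t : ℂ) - z₂‖ := by
    by_contra h
    have := f₂ t
    have h' := mul_le_mul_of_nonneg_left (not_lt.mp h) hc₂.le
    linarith
  have m₁ : (t : ℂ) - z₁ ≠ 0 := norm_pos_iff.mp n₁
  have m₂ : (t : ℂ) - z₂ ≠ 0 := norm_pos_iff.mp n₂
  have e : 1 / ((t : ℂ) - z₁) - 1 / ((t : ℂ) - z₂) = (z₁ - z₂) / (((t : ℂ) - z₁) * ((t : ℂ) - z₂)) := by
    field_simp
    ring
  rw [e, norm_div, norm_mul, ← div_eq_mul_inv, div_le_div_iff₀ (by positivity) (by positivity)]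
  calc ‖z₁ - z₂‖ * ((1 + |t|) * (1 + |t|))
      ≤ ‖z₁ - z₂‖ * ((c₁ * ‖(t : ℂ) - z₁‖) * (c₂ * ‖(t : ℂ) - z₂‖)) := by
        apply mul_le_mul_of_nonneg_left _ (norm_nonneg _)
        exact mul_le_mul (f₁ t) (f₂ t) hp.le (by positivity)
    _ = _ := by ring

/-- bound for the Poisson kernel -/
theorem a2_poi (z : ℂ) (hz : z ∈ Uo) :
    ∃ c : ℝ, 0 ≤ c ∧ ∀ t : ℝ, |z.im / ((t - z.re) ^ 2 + z.im ^ 2)| ≤ c * ((1 + |t|) * (1 + |t|))⁻¹ := by
  obtain ⟨c₁, hc₁, f₁⟩ := a2_far z hz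
  have hz' : 0 < z.im := hz
  refine ⟨z.im * (c₁ * c₁), by positivity, fun t => ?_⟩
  have hp : (0 : ℝ) < 1 + |t| := by positivity
  have h1 : (t - z.re) ^ 2 + z.im ^ 2 = ‖(t : ℂ) - z‖ * ‖(t : ℂ) - z‖ := by
    rw [← sq, ← Complex.normSq_eq_norm_sq, Complex.normSq_apply]
    simp
    ring
  have h2 : 0 < (t - z.re) ^ 2 + z.im ^ 2 := by positivity
  rw [abs_of_pos (by positivity), ← div_eq_mul_inv, div_le_div_iff₀ h2 (by positivity), h1]
  calc z.im * ((1 + |t|) * (1 + |t|))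
      ≤ z.im * ((c₁ * ‖(t : ℂ) - z‖) * (c₁ * ‖(t : ℂ) - z‖)) := by
        apply mul_le_mul_of_nonneg_left _ hz'.le
        exact mul_le_mul (f₁ t) (f₁ t) hp.le (by positivity)
    _ = _ := by ring

/-- A1 for the shifted function -/
theorem a2_shift (G : ℂ → ℂ) (A : ℝ) (hd : DifferentiableOn ℂ G Uo)
    (hA : ∀ z ∈ Uo, ‖G z‖ ≤ A * (1 + |Real.log z.im| + Real.log (1 + ‖z‖))) (d : ℝ) (hd0 : 0 < d) :
    ContinuousOn (fun z => G (z + (d : ℂ) * I)) Uc ∧ DifferentiableOn ℂ (fun z => G (z + (d : ℂ) * I)) Uo ∧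
    ∀ z ∈ Uc, ‖G (z + (d : ℂ) * I)‖ ≤
      (|A| * (2 + |Real.log d| + 2 * Real.log (1 + d))) * (1 + Real.log (1 + ‖z‖)) := by
  have him : ∀ z : ℂ, (z + (d : ℂ) * I).im = z.im + d := by
    intro z
    simp
  have hm : ∀ z ∈ Uc, z + (d : ℂ) * I ∈ Uo := by
    intro z hz
    have hz' : 0 ≤ z.im := hz
    show 0 < (z + (d : ℂ) * I).im
    rw [him]
    linarith
  have hm' : ∀ z ∈ Uo, z + (d : ℂ) * I ∈ Uo := fun z hz => hm z (le_of_lt (show 0 < z.im from hz))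
  refine ⟨?_, ?_, ?_⟩
  · exact hd.continuousOn.comp (by fun_prop) hm
  · exact hd.comp (by fun_prop) hm'
  · intro z hz
    have hz' : 0 ≤ z.im := hz
    have h1 := hA _ (hm z hz)
    have h0 : 0 ≤ Real.log (1 + ‖z‖) := Real.log_nonneg (by linarith [norm_nonneg z])
    have h0' : 0 ≤ Real.log (1 + d) := Real.log_nonneg (by linarith)
    have hw : ‖z + (d : ℂ) * I‖ ≤ ‖z‖ + d := by
      refine (norm_add_le _ _).trans ?_
      rw [norm_mul, Complex.norm_I, mul_one, Complex.norm_real, Real.norm_eq_abs, abs_of_pos hd0]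
    have h2 : Real.log (1 + ‖z + (d : ℂ) * I‖) ≤ Real.log (1 + ‖z‖) + Real.log (1 + d) := by
      rw [← Real.log_mul (by positivity) (by positivity)]
      apply Real.log_le_log (by positivity)
      nlinarith [norm_nonneg z]
    have h3 : |Real.log (z + (d : ℂ) * I).im| ≤ |Real.log d| + Real.log (1 + ‖z + (d : ℂ) * I‖) := by
      rw [him]
      have hlog0 : 0 ≤ Real.log (1 + ‖z + (d : ℂ) * I‖) :=
        Real.log_nonneg (by linarith [norm_nonneg (z + (d : ℂ) * I)])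
      rcases le_total 1 (z.im + d) with h | h
      · rw [abs_of_nonneg (Real.log_nonneg h)]
        have h5 : z.im + d ≤ 1 + ‖z + (d : ℂ) * I‖ := by
          have := Complex.abs_im_le_norm (z + (d : ℂ) * I)
          rw [him] at this
          linarith [le_abs_self (z.im + d)]
        have := Real.log_le_log (by linarith) h5
        linarith [abs_nonneg (Real.log d)]
      · rw [abs_of_nonpos (Real.log_nonpos (by linarith) h)]
        have h5 := Real.log_le_log hd0 (show d ≤ z.im + d by linarith)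
        linarith [neg_abs_le (Real.log d)]
    have hl : 0 ≤ Real.log (1 + ‖z + (d : ℂ) * I‖) :=
      Real.log_nonneg (by linarith [norm_nonneg (z + (d : ℂ) * I)])
    calc ‖G (z + (d : ℂ) * I)‖
        ≤ A * (1 + |Real.log (z + (d : ℂ) * I).im| + Real.log (1 + ‖z + (d : ℂ) * I‖)) := h1
      _ ≤ |A| * (1 + |Real.log (z + (d : ℂ) * I).im| + Real.log (1 + ‖z + (d : ℂ) * I‖)) :=
          mul_le_mul_of_nonneg_right (le_abs_self A) (by positivity)
      _ ≤ |A| * ((2 + |Real.log d| + 2 * Real.log (1 + d)) * (1 + Real.log (1 + ‖z‖))) := by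
          apply mul_le_mul_of_nonneg_left _ (abs_nonneg A)
          have h6 : 0 ≤ (|Real.log d| + 2 * Real.log (1 + d)) * Real.log (1 + ‖z‖) := by positivity
          nlinarith
      _ = _ := by ring

theorem st_A2 (hA1 : ST_A1) : ST_A2 := by
  intro G S A hc hd hA hI
  -- the sequence of shifts
  set d : ℕ → ℝ := fun n => 1 / ((n : ℝ) + 1) with hdd
  have d0 : ∀ n, 0 < d n := fun n => by simp only [hdd]; positivity
  have d1 : ∀ n, d n ≤ 1 := fun n => by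
    simp only [hdd]
    rw [div_le_one (by positivity)]
    linarith [Nat.cast_nonneg (α := ℝ) n]
  have dlim : Tendsto d atTop (𝓝 0) := tendsto_one_div_add_atTop_nhds_zero_nat
  have dI : ∀ z : ℂ, Tendsto (fun n => z + (d n : ℂ) * I) atTop (𝓝 z) := by
    intro z
    have h1 : Tendsto (fun n => ((d n : ℝ) : ℂ)) atTop (𝓝 ((0 : ℝ) : ℂ)) :=
      (Complex.continuous_ofReal.tendsto 0).comp dlim
    have h2 := (h1.mul_const I).const_add z
    simpa using h2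
  have him : ∀ (z : ℂ) (n : ℕ), (z + (d n : ℂ) * I).im = z.im + d n := by
    intro z n
    simp
  have hlimU : ∀ z ∈ Uo, Tendsto (fun n => G (z + (d n : ℂ) * I)) atTop (𝓝 (G z)) := by
    intro z hz
    have h1 : ContinuousAt G z := (hd.differentiableAt (a2_isOpen_Uo.mem_nhds hz)).continuousAt
    exact h1.tendsto.comp (dI z)
  have hlimR : ∀ t : ℝ, t ∉ S → Tendsto (fun n => G ((t : ℂ) + (d n : ℂ) * I)) atTop (𝓝 (G t)) := by
    intro t ht
    have h0 : ((t : ℝ) : ℂ) ∈ Ucm S := by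
      refine ⟨by simp, fun s hs h => ht ?_⟩
      have : t = s := by exact_mod_cast h
      rwa [this]
    have h1 := (hc _ h0).tendsto
    refine h1.comp (tendsto_nhdsWithin_iff.mpr ⟨dI t, Eventually.of_forall fun n => ⟨?_, fun s hs h => ?_⟩⟩)
    · show 0 ≤ ((t : ℂ) + (d n : ℂ) * I).im
      rw [him]
      simp [(d0 n).le]
    · have h2 := congrArg Complex.im h
      rw [him] at h2
      simp only [ofReal_im, zero_add] at h2
      exact absurd h2 (d0 n).ne'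
  have hae : ∀ᵐ t : ℝ, t ∉ S := by
    have h1 : volume (S : Set ℝ) = 0 := S.finite_toSet.measure_zero volume
    rw [ae_iff]
    simpa using h1
  have hF : ∀ n, _ := fun n =>
    hA1 (fun z => G (z + (d n : ℂ) * I)) _ (a2_shift G A hd hA (d n) (d0 n)).1
      (a2_shift G A hd hA (d n) (d0 n)).2.1 (a2_shift G A hd hA (d n) (d0 n)).2.2
  refine ⟨fun z hz => ?_, fun z₁ h₁ z₂ h₂ => ?_⟩
  · obtain ⟨c, hc0, hck⟩ := a2_poi z hz
    have key := a2_lim (fun n (t : ℝ) => (G ((t : ℂ) + (d n : ℂ) * I)).im * (z.im / ((t - z.re) ^ 2 + z.im ^ 2)))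
      (fun t : ℝ => (G t).im * (z.im / ((t - z.re) ^ 2 + z.im ^ 2)))
      (fun t : ℝ => (6 * |A| * c) * (1 + ‖t‖) ^ (-(3 / 2) : ℝ)) ?_ (a2_int _) ?_ ?_
    · refine ⟨key.1, ?_⟩
      have e1 : ∀ n, (G (z + (d n : ℂ) * I)).im = (1 / Real.pi) *
          ∫ t : ℝ, (G ((t : ℂ) + (d n : ℂ) * I)).im * (z.im / ((t - z.re) ^ 2 + z.im ^ 2)) := by
        intro n
        obtain ⟨i, e⟩ := (hF n).1 z hz
        have h1 := congrArg Complex.im e
        rw [Complex.im_ofReal_mul] at h1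
        have h2 : (∫ t : ℝ, ((z.im / ((t - z.re) ^ 2 + z.im ^ 2) : ℝ) : ℂ) * G ((t : ℂ) + (d n : ℂ) * I)).im
            = ∫ t : ℝ, (G ((t : ℂ) + (d n : ℂ) * I)).im * (z.im / ((t - z.re) ^ 2 + z.im ^ 2)) := by
          refine (integral_im i).symm.trans ?_
          apply integral_congr_ae
          refine ae_of_all _ fun t => ?_
          show (((z.im / ((t - z.re) ^ 2 + z.im ^ 2) : ℝ) : ℂ) * G ((t : ℂ) + (d n : ℂ) * I)).im = _
          rw [Complex.im_ofReal_mul]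
          ring
        rw [h2] at h1
        exact h1
      have l1 : Tendsto (fun n => (G (z + (d n : ℂ) * I)).im) atTop (𝓝 (G z).im) :=
        (Complex.continuous_im.tendsto _).comp (hlimU z hz)
      have l2 := key.2.const_mul (1 / Real.pi)
      simp only [← e1] at l2
      exact tendsto_nhds_unique l1 l2
    · intro n
      obtain ⟨i, -⟩ := (hF n).1 z hz
      refine i.im.congr (ae_of_all _ fun t => ?_)
      show (((z.im / ((t - z.re) ^ 2 + z.im ^ 2) : ℝ) : ℂ) * G ((t : ℂ) + (d n : ℂ) * I)).im = _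
      rw [Complex.im_ofReal_mul]
      ring
    · intro n t
      have h1 := a2_bd G A hI (d n) t (d0 n) (d1 n)
      rw [Real.norm_eq_abs, abs_mul]
      calc |(G ((t : ℂ) + (d n : ℂ) * I)).im| * |z.im / ((t - z.re) ^ 2 + z.im ^ 2)|
          ≤ ((6 * |A|) * (1 + |t|) ^ (1 / 2 : ℝ)) * (c * ((1 + |t|) * (1 + |t|))⁻¹) :=
            mul_le_mul h1 (hck t) (abs_nonneg _) (by positivity)
        _ = (6 * |A| * c) * ((1 + |t|) ^ (1 / 2 : ℝ) * ((1 + |t|) * (1 + |t|))⁻¹) := by ring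
        _ = _ := by rw [a2_pow]
    · filter_upwards [hae] with t ht
      exact (((Complex.continuous_im.tendsto _).comp (hlimR t ht)).mul_const _)
  · obtain ⟨c, hc0, hck⟩ := a2_ker z₁ z₂ h₁ h₂
    have key := a2_lim (fun n (t : ℝ) => (((G ((t : ℂ) + (d n : ℂ) * I)).im : ℝ) : ℂ) *
        (1 / ((t : ℂ) - z₁) - 1 / ((t : ℂ) - z₂)))
      (fun t : ℝ => (((G t).im : ℝ) : ℂ) * (1 / ((t : ℂ) - z₁) - 1 / ((t : ℂ) - z₂)))
      (fun t : ℝ => (6 * |A| * c) * (1 + ‖t‖) ^ (-(3 / 2) : ℝ)) (fun n => ((hF n).2 z₁ h₁ z₂ h₂).1)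
      (a2_int _) ?_ ?_
    · refine ⟨key.1, ?_⟩
      have l1 := (hlimU z₁ h₁).sub (hlimU z₂ h₂)
      have l2 := key.2.const_mul (((1 / Real.pi : ℝ) : ℂ))
      have e1 : ∀ n, G (z₁ + (d n : ℂ) * I) - G (z₂ + (d n : ℂ) * I) = ((1 / Real.pi : ℝ) : ℂ) *
          ∫ t : ℝ, (((G ((t : ℂ) + (d n : ℂ) * I)).im : ℝ) : ℂ) * (1 / ((t : ℂ) - z₁) - 1 / ((t : ℂ) - z₂)) :=
        fun n => ((hF n).2 z₁ h₁ z₂ h₂).2
      simp only [← e1] at l2
      exact tendsto_nhds_unique l1 l2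
    · intro n t
      have h1 := a2_bd G A hI (d n) t (d0 n) (d1 n)
      rw [norm_mul, Complex.norm_real, Real.norm_eq_abs]
      calc |(G ((t : ℂ) + (d n : ℂ) * I)).im| * ‖1 / ((t : ℂ) - z₁) - 1 / ((t : ℂ) - z₂)‖
          ≤ ((6 * |A|) * (1 + |t|) ^ (1 / 2 : ℝ)) * (c * ((1 + |t|) * (1 + |t|))⁻¹) :=
            mul_le_mul h1 (hck t) (norm_nonneg _) (by positivity)
        _ = (6 * |A| * c) * ((1 + |t|) ^ (1 / 2 : ℝ) * ((1 + |t|) * (1 + |t|))⁻¹) := by ring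
        _ = _ := by rw [a2_pow]
    · filter_upwards [hae] with t ht
      have h1 : Tendsto (fun n => (((G ((t : ℂ) + (d n : ℂ) * I)).im : ℝ) : ℂ)) atTop
          (𝓝 (((G t).im : ℝ) : ℂ)) :=
        (Complex.continuous_ofReal.tendsto _).comp ((Complex.continuous_im.tendsto _).comp (hlimR t ht))
      exact h1.mul_const _

end

end Pool.Agent.Helper36.CV
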